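import Pool.Agent.H78.PB.Stm2

/-! Project PB: differentiation of cosine and sine transforms; elementary properties of `p1`. -/

set_option autoImplicit false

open MeasureTheory Filter Topology Set
open Pool.Agent.H78.PB

namespace Pool.Agent.H5PB.Cos

section gen

variable {p : ℝ → ℝ}

theorem int_mul (hp : Continuous p) (hi : ∀ k : ℕ, Integrable (fun y : ℝ => p y * (1 + |y|) ^ k))
    (k : ℕ) {g : ℝ → ℝ} (hg : Continuous g) (hg1 : ∀ y, |g y| ≤ 1) :
    Integrable (fun y : ℝ => p y * y ^ k * g y) := by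
  refine (hi k).mono ((hp.mul (continuous_id.pow k)).mul hg).aestronglyMeasurable
    (Eventually.of_forall fun y => ?_)
  rw [Real.norm_eq_abs, Real.norm_eq_abs, abs_mul, abs_mul, abs_mul, abs_pow, abs_pow]
  have h1 : (abs y) ^ k ≤ (abs (1 + abs y)) ^ k := by
    refine pow_le_pow_left₀ (abs_nonneg _) ?_ k
    rw [abs_of_nonneg (show (0 : ℝ) ≤ 1 + abs y by positivity)]
    linarith
  calc |p y| * |y| ^ k * |g y| ≤ |p y| * (abs (1 + abs y)) ^ k * 1 :=
        mul_le_mul (mul_le_mul_of_nonneg_left h1 (abs_nonneg _)) (hg1 y) (abs_nonneg _) (by positivity)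
    _ = _ := mul_one _

theorem int_bd (hi : ∀ k : ℕ, Integrable (fun y : ℝ => p y * (1 + |y|) ^ k)) (k : ℕ) :
    Integrable (fun y : ℝ => |p y| * (1 + |y|) ^ k) := by
  refine (hi k).norm.congr (Eventually.of_forall fun y => ?_)
  simp only [Real.norm_eq_abs, abs_mul, abs_pow]
  rw [abs_of_nonneg (show (0 : ℝ) ≤ 1 + |y| by positivity)]

theorem dC (hp : Continuous p) (hi : ∀ k : ℕ, Integrable (fun y : ℝ => p y * (1 + |y|) ^ k))
    (k : ℕ) (t : ℝ) : HasDerivAt (fun t : ℝ => ∫ y, p y * y ^ k * Real.cos (t * y))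
      (-∫ y, p y * y ^ (k + 1) * Real.sin (t * y)) t := by
  have h := hasDerivAt_integral_of_dominated_loc_of_deriv_le (μ := volume) (x₀ := t) (s := univ)
    (F := fun t y => p y * y ^ k * Real.cos (t * y))
    (F' := fun t y => p y * y ^ k * (-Real.sin (t * y) * y))
    (bound := fun y => |p y| * (1 + |y|) ^ (k + 1)) Filter.univ_mem
    (Eventually.of_forall fun t => (int_mul hp hi k (by fun_prop)
      fun y => Real.abs_cos_le_one _).aestronglyMeasurable)
    (int_mul hp hi k (by fun_prop) fun y => Real.abs_cos_le_one _)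
    (by fun_prop)
    (Eventually.of_forall fun y x _ => ?_) (int_bd hi (k + 1))
    (Eventually.of_forall fun y x _ => ?_)
  · have h2 := h.2
    have e : (∫ y, p y * y ^ k * (-Real.sin (t * y) * y)) = -∫ y, p y * y ^ (k + 1) * Real.sin (t * y) := by
      rw [← integral_neg]
      congr 1
      ext y
      ring
    rwa [e] at h2
  · rw [Real.norm_eq_abs, abs_mul, abs_mul, abs_mul, abs_neg, abs_pow]
    have h1 : |y| ^ (k + 1) ≤ (1 + |y|) ^ (k + 1) :=
      pow_le_pow_left₀ (abs_nonneg _) (by linarith) _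
    have h2 : |Real.sin (x * y)| ≤ 1 := Real.abs_sin_le_one _
    have h3 : |y| ^ k * (|Real.sin (x * y)| * |y|) ≤ |y| ^ (k + 1) := by
      rw [pow_succ]
      refine mul_le_mul_of_nonneg_left ?_ (by positivity)
      calc |Real.sin (x * y)| * |y| ≤ 1 * |y| := mul_le_mul_of_nonneg_right h2 (abs_nonneg _)
        _ = |y| := one_mul _
    rw [mul_assoc]
    exact mul_le_mul_of_nonneg_left (h3.trans h1) (abs_nonneg _)
  · have h1 : HasDerivAt (fun t : ℝ => t * y) y x := by simpa using (hasDerivAt_id x).mul_const y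
    exact ((Real.hasDerivAt_cos _).comp x h1).const_mul (p y * y ^ k)

theorem dS (hp : Continuous p) (hi : ∀ k : ℕ, Integrable (fun y : ℝ => p y * (1 + |y|) ^ k))
    (k : ℕ) (t : ℝ) : HasDerivAt (fun t : ℝ => ∫ y, p y * y ^ k * Real.sin (t * y))
      (∫ y, p y * y ^ (k + 1) * Real.cos (t * y)) t := by
  have h := hasDerivAt_integral_of_dominated_loc_of_deriv_le (μ := volume) (x₀ := t) (s := univ)
    (F := fun t y => p y * y ^ k * Real.sin (t * y))
    (F' := fun t y => p y * y ^ k * (Real.cos (t * y) * y))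
    (bound := fun y => |p y| * (1 + |y|) ^ (k + 1)) Filter.univ_mem
    (Eventually.of_forall fun t => (int_mul hp hi k (by fun_prop)
      fun y => Real.abs_sin_le_one _).aestronglyMeasurable)
    (int_mul hp hi k (by fun_prop) fun y => Real.abs_sin_le_one _)
    (by fun_prop)
    (Eventually.of_forall fun y x _ => ?_) (int_bd hi (k + 1))
    (Eventually.of_forall fun y x _ => ?_)
  · have h2 := h.2
    have e : (∫ y, p y * y ^ k * (Real.cos (t * y) * y)) = ∫ y, p y * y ^ (k + 1) * Real.cos (t * y) := by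
      congr 1
      ext y
      ring
    rwa [e] at h2
  · rw [Real.norm_eq_abs, abs_mul, abs_mul, abs_mul, abs_pow]
    have h1 : |y| ^ (k + 1) ≤ (1 + |y|) ^ (k + 1) :=
      pow_le_pow_left₀ (abs_nonneg _) (by linarith) _
    have h2 : |Real.cos (x * y)| ≤ 1 := Real.abs_cos_le_one _
    have h3 : |y| ^ k * (|Real.cos (x * y)| * |y|) ≤ |y| ^ (k + 1) := by
      rw [pow_succ]
      refine mul_le_mul_of_nonneg_left ?_ (by positivity)
      calc |Real.cos (x * y)| * |y| ≤ 1 * |y| := mul_le_mul_of_nonneg_right h2 (abs_nonneg _)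
        _ = |y| := one_mul _
    rw [mul_assoc]
    exact mul_le_mul_of_nonneg_left (h3.trans h1) (abs_nonneg _)
  · have h1 : HasDerivAt (fun t : ℝ => t * y) y x := by simpa using (hasDerivAt_id x).mul_const y
    exact ((Real.hasDerivAt_sin _).comp x h1).const_mul (p y * y ^ k)

end gen

theorem den_pos {θ : ℝ} (h0 : 0 < θ) (h1 : θ < 1) (y : ℝ) :
    0 < Real.cosh (Real.pi * y) + Real.cos (Real.pi * θ) := by
  have h2 : 1 ≤ Real.cosh (Real.pi * y) := Real.one_le_cosh _
  have h3 : -1 < Real.cos (Real.pi * θ) := by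
    rw [← Real.cos_pi]
    refine Real.cos_lt_cos_of_nonneg_of_le_pi (by positivity) le_rfl ?_
    calc Real.pi * θ < Real.pi * 1 := mul_lt_mul_of_pos_left h1 Real.pi_pos
      _ = Real.pi := mul_one _
  linarith

theorem p1_cont {θ : ℝ} (h0 : 0 < θ) (h1 : θ < 1) : Continuous (p1 θ) := by
  unfold p1
  refine Continuous.div continuous_const ?_ fun y => ?_
  · have := Real.continuous_cosh
    fun_prop
  · have := den_pos h0 h1 y
    positivity

theorem p1_pos {θ : ℝ} (h0 : 0 < θ) (h1 : θ < 1) (y : ℝ) : 0 < p1 θ y := by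
  unfold p1
  have := den_pos h0 h1 y
  have h3 : 0 < Real.sin (Real.pi * θ) := by
    refine Real.sin_pos_of_pos_of_lt_pi (by positivity) ?_
    calc Real.pi * θ < Real.pi * 1 := mul_lt_mul_of_pos_left h1 Real.pi_pos
      _ = Real.pi := mul_one _
  positivity

theorem p1_even (θ y : ℝ) : p1 θ (-y) = p1 θ y := by
  unfold p1
  rw [mul_neg, Real.cosh_neg]

end Pool.Agent.H5PB.Cos
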