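import Pool.Agent.H78.PB.Stm4
import Pool.Agent.N892.BW.ASR

/-! Project PB, stub GLB: a lower bound for quotients of Gamma values. -/

set_option autoImplicit false

open Filter Topology Set

namespace Pool.Agent.H5PB.GLB

open Pool.Agent.N892.BW Pool.Agent.H78.PB

theorem hlog {y : ℝ} (h0 : -1 < y) (h1 : y < 1) :
    HasDerivAt (fun y : ℝ => Real.log (1 + y) - Real.log (1 - y)) (2 / (1 - y ^ 2)) y := by
  have h2 : HasDerivAt (fun y : ℝ => 1 + y) 1 y := (hasDerivAt_id y).const_add 1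
  have h3 : HasDerivAt (fun y : ℝ => 1 - y) (-1) y := (hasDerivAt_id y).const_sub 1
  have h4 := (h2.log (by linarith)).sub (h3.log (by linarith))
  refine h4.congr_deriv ?_
  have e1 : (1 : ℝ) + y ≠ 0 := by linarith
  have e2 : (1 : ℝ) - y ≠ 0 := by linarith
  have e3 : (1 : ℝ) - y ^ 2 ≠ 0 := by
    have : (1 : ℝ) - y ^ 2 = (1 + y) * (1 - y) := by ring
    rw [this]; exact mul_ne_zero e1 e2
  field_simp
  ring

/-- lower bound of the logarithm -/
theorem low {y : ℝ} (h0 : 0 ≤ y) (h1 : y < 1) : 2 * y ≤ Real.log (1 + y) - Real.log (1 - y) := by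
  have hd : ∀ x ∈ Icc (0 : ℝ) y, HasDerivAt (fun y : ℝ => Real.log (1 + y) - Real.log (1 - y) - 2 * y)
      (2 / (1 - x ^ 2) - 2) x := by
    intro x hx
    have h2 : HasDerivAt (fun y : ℝ => 2 * y) 2 x := by simpa using (hasDerivAt_id x).const_mul 2
    exact (hlog (by linarith [hx.1]) (by linarith [hx.2])).sub h2
  have hm : MonotoneOn (fun y : ℝ => Real.log (1 + y) - Real.log (1 - y) - 2 * y) (Icc 0 y) := by
    refine monotoneOn_of_deriv_nonneg (convex_Icc 0 y)
      (fun x hx => (hd x hx).continuousAt.continuousWithinAt)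
      (fun x hx => (hd x (interior_subset hx)).differentiableAt.differentiableWithinAt) fun x hx => ?_
    have hx' := interior_subset hx
    rw [(hd x hx').deriv]
    have h3 : 0 < 1 - x ^ 2 := by nlinarith [hx'.1, hx'.2]
    have h4 : 2 ≤ 2 / (1 - x ^ 2) := by
      rw [le_div_iff₀ h3]
      nlinarith [sq_nonneg x]
    linarith
  have := hm ⟨le_rfl, h0⟩ ⟨h0, le_rfl⟩ h0
  simp at this
  linarith

/-- upper bound of the logarithm -/
theorem up {y : ℝ} (h0 : 0 ≤ y) (h1 : y < 1) :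
    Real.log (1 + y) - Real.log (1 - y) ≤ 2 * y + 2 / 3 * (y ^ 3 / (1 - y ^ 2)) := by
  have hd : ∀ x ∈ Icc (0 : ℝ) y, HasDerivAt (fun y : ℝ => 2 * y + 2 / 3 * (y ^ 3 / (1 - y ^ 2)) -
      (Real.log (1 + y) - Real.log (1 - y)))
      (2 + 2 / 3 * ((3 * x ^ 2 * (1 - x ^ 2) - x ^ 3 * (-(2 * x))) / (1 - x ^ 2) ^ 2) -
        2 / (1 - x ^ 2)) x := by
    intro x hx
    have h3 : 0 < 1 - x ^ 2 := by nlinarith [hx.1, hx.2]
    have h2 : HasDerivAt (fun y : ℝ => 2 * y) 2 x := by simpa using (hasDerivAt_id x).const_mul 2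
    have h4 : HasDerivAt (fun y : ℝ => y ^ 3) (3 * x ^ 2) x := by simpa using hasDerivAt_pow 3 x
    have h5 : HasDerivAt (fun y : ℝ => 1 - y ^ 2) (-(2 * x)) x := by
      simpa using (hasDerivAt_pow 2 x).const_sub 1
    exact (h2.add ((h4.div h5 h3.ne').const_mul (2 / 3))).sub
      (hlog (by linarith [hx.1]) (by linarith [hx.2]))
  have hm : MonotoneOn (fun y : ℝ => 2 * y + 2 / 3 * (y ^ 3 / (1 - y ^ 2)) -
      (Real.log (1 + y) - Real.log (1 - y))) (Icc 0 y) := by
    refine monotoneOn_of_deriv_nonneg (convex_Icc 0 y)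
      (fun x hx => (hd x hx).continuousAt.continuousWithinAt)
      (fun x hx => (hd x (interior_subset hx)).differentiableAt.differentiableWithinAt) fun x hx => ?_
    have hx' := interior_subset hx
    rw [(hd x hx').deriv]
    have h3 : 0 < 1 - x ^ 2 := by nlinarith [hx'.1, hx'.2]
    have e : 2 + 2 / 3 * ((3 * x ^ 2 * (1 - x ^ 2) - x ^ 3 * (-(2 * x))) / (1 - x ^ 2) ^ 2) -
        2 / (1 - x ^ 2) = 4 / 3 * x ^ 4 / (1 - x ^ 2) ^ 2 := by
      field_simp
      ring
    rw [e]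
    positivity
  have := hm ⟨le_rfl, h0⟩ ⟨h0, le_rfl⟩ h0
  simp at this
  linarith

/-- the inequality for one step -/
theorem step {k s : ℝ} (hk : 1 ≤ k) (h0 : 0 < s) (h1 : s ≤ 1 / 2) :
    -((1 - 2 * s) * Real.log k) - (1 - 2 * s) / (24 * k ^ 2) ≤
      Real.log (1 - s + k) - Real.log (s + k) - (1 - 2 * s) * Real.log (k + 1) -
        (1 - 2 * s) / (24 * (k + 1) ^ 2) := by
  set d : ℝ := 1 / 2 - s with hd
  set N : ℝ := k + 1 / 2 with hN
  have hN0 : 0 < N := by rw [hN]; linarith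
  have hd0 : 0 ≤ d := by rw [hd]; linarith
  have hdN : d < N := by rw [hd, hN]; linarith
  have a1 := low (y := d / N) (by positivity) (by rw [div_lt_one hN0]; exact hdN)
  have a2 := up (y := 1 / (2 * N)) (by positivity) (by
    rw [div_lt_one (by positivity)]; rw [hN]; linarith)
  have e1 : Real.log (1 + d / N) - Real.log (1 - d / N) = Real.log (1 - s + k) - Real.log (s + k) := by
    have g1 : 1 + d / N = (1 - s + k) / N := by rw [hd, hN] ; field_simp; ring
    have g2 : 1 - d / N = (s + k) / N := by rw [hd, hN]; field_simp; ring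
    rw [g1, g2, Real.log_div (by linarith) hN0.ne', Real.log_div (by linarith) hN0.ne']
    ring
  have e2 : Real.log (1 + 1 / (2 * N)) - Real.log (1 - 1 / (2 * N)) = Real.log (k + 1) - Real.log k := by
    have g1 : 1 + 1 / (2 * N) = (k + 1) / N := by rw [hN]; field_simp; ring
    have g2 : 1 - 1 / (2 * N) = k / N := by rw [hN]; field_simp; ring
    rw [g1, g2, Real.log_div (by linarith) hN0.ne', Real.log_div (by linarith) hN0.ne']
    ring
  rw [e1] at a1
  rw [e2] at a2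
  have hk0 : 0 < k := by linarith
  have a3 : 2 / 3 * ((1 / (2 * N)) ^ 3 / (1 - (1 / (2 * N)) ^ 2)) ≤
      (1 / 24) * (1 / k ^ 2 - 1 / (k + 1) ^ 2) := by
    have hP : 0 < k * (k + 1) := by positivity
    have g1 : 1 - (1 / (2 * N)) ^ 2 = k * (k + 1) / N ^ 2 := by
      rw [hN]; field_simp; ring
    have g2 : 2 / 3 * ((1 / (2 * N)) ^ 3 / (1 - (1 / (2 * N)) ^ 2)) = 1 / (12 * N * (k * (k + 1))) := by
      rw [g1]; field_simp; ring
    have g3 : (1 / 24 : ℝ) * (1 / k ^ 2 - 1 / (k + 1) ^ 2) = N / (12 * (k * (k + 1)) ^ 2) := by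
      rw [hN]; field_simp; ring
    rw [g2, g3, div_le_div_iff₀ (by positivity) (by positivity)]
    have g4 : k * (k + 1) ≤ N ^ 2 := by rw [hN]; nlinarith
    nlinarith [mul_le_mul_of_nonneg_left g4 (show (0 : ℝ) ≤ 12 * (k * (k + 1)) by positivity)]
  have e3 : 1 - 2 * s = 2 * d := by rw [hd]; ring
  have e4 : 2 * (1 / (2 * N)) = 1 / N := by field_simp
  rw [e4] at a2
  have a4 : Real.log (k + 1) - Real.log k ≤ 1 / N + (1 / 24) * (1 / k ^ 2 - 1 / (k + 1) ^ 2) := by linarith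
  have a5 := mul_le_mul_of_nonneg_left a4 (show 0 ≤ 2 * d by linarith)
  have e5 : 2 * (d / N) = 2 * d * (1 / N) := by ring
  rw [e5] at a1
  rw [e3]
  have e6 : 2 * d / (24 * k ^ 2) = 2 * d * ((1 / 24) * (1 / k ^ 2)) := by field_simp
  have e7 : 2 * d / (24 * (k + 1) ^ 2) = 2 * d * ((1 / 24) * (1 / (k + 1) ^ 2)) := by field_simp
  rw [e6, e7]
  nlinarith

/-- the monotone sequence -/
noncomputable def uu (s : ℝ) (n : ℕ) : ℝ :=
  Qn n s * (n : ℝ) ^ (-(1 - 2 * s)) * Real.exp (-((1 - 2 * s) / (24 * (n : ℝ) ^ 2)))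

theorem Qn_pos {s : ℝ} (h0 : 0 < s) (h1 : s ≤ 1 / 2) (n : ℕ) : 0 < Qn n s := by
  unfold Qn
  refine Finset.prod_pos fun j _ => ?_
  have : (0 : ℝ) ≤ j := Nat.cast_nonneg j
  exact div_pos (by linarith) (by linarith)

theorem uu_succ {s : ℝ} (h0 : 0 < s) (h1 : s ≤ 1 / 2) {n : ℕ} (hn : 1 ≤ n) : uu s n ≤ uu s (n + 1) := by
  have hk : (1 : ℝ) ≤ n := by exact_mod_cast hn
  have hk0 : (0 : ℝ) < n := by linarith
  have hst := step hk h0 h1
  unfold uu
  have e1 : Qn (n + 1) s = Qn n s * ((1 - s + n) / (s + n)) := by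
    unfold Qn
    rw [Finset.prod_range_succ]
  rw [e1, mul_assoc, mul_assoc, mul_assoc]
  refine mul_le_mul_of_nonneg_left ?_ (Qn_pos h0 h1 n).le
  have f1 : (n : ℝ) ^ (-(1 - 2 * s)) = Real.exp (-((1 - 2 * s) * Real.log n)) := by
    rw [Real.rpow_def_of_pos hk0]; congr 1; ring
  have f2 : ((n + 1 : ℕ) : ℝ) ^ (-(1 - 2 * s)) = Real.exp (-((1 - 2 * s) * Real.log (n + 1))) := by
    push_cast
    rw [Real.rpow_def_of_pos (by linarith)]; congr 1; ring
  have f3 : (1 - s + n) / (s + n) = Real.exp (Real.log (1 - s + n) - Real.log (s + n)) := by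
    rw [Real.exp_sub, Real.exp_log (by linarith), Real.exp_log (by linarith)]
  rw [f1, f2, f3, ← Real.exp_add, ← Real.exp_add, ← Real.exp_add]
  refine Real.exp_le_exp.2 ?_
  push_cast
  linarith

theorem uu_lim {s : ℝ} (h0 : 0 < s) (h1 : s ≤ 1 / 2) : Tendsto (uu s) atTop (𝓝 (Gs s)) := by
  have hG : 0 < Gs s := div_pos (Real.Gamma_pos_of_pos h0) (Real.Gamma_pos_of_pos (by linarith))
  have h2 := ASR.t s h0 (by linarith)
  have h3 : Tendsto (fun n : ℕ => Gs s / ((n : ℝ) ^ (1 - 2 * s) * Gs s / Qn n s)) atTop (𝓝 (Gs s / 1)) :=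
    tendsto_const_nhds.div h2 one_ne_zero
  have h4 : Tendsto (fun n : ℕ => Real.exp (-((1 - 2 * s) / (24 * (n : ℝ) ^ 2)))) atTop (𝓝 1) := by
    have h5 : Tendsto (fun n : ℕ => -((1 - 2 * s) / (24 * (n : ℝ) ^ 2))) atTop (𝓝 0) := by
      have h6 : Tendsto (fun n : ℕ => (24 * (n : ℝ) ^ 2)) atTop atTop :=
        (tendsto_natCast_atTop_atTop.comp (tendsto_id) |>.comp tendsto_id |> fun h =>
          (tendsto_pow_atTop (two_ne_zero)).comp h).const_mul_atTop (by norm_num)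
      have h7 := (tendsto_const_nhds (x := 1 - 2 * s)).div_atTop h6
      simpa using h7.neg
    have := (Real.continuous_exp.tendsto 0).comp h5
    rwa [Real.exp_zero] at this
  have h5 := h3.mul h4
  rw [div_one, mul_one] at h5
  refine h5.congr' ?_
  filter_upwards [eventually_gt_atTop 0] with n hn
  have hn0 : (0 : ℝ) < n := by exact_mod_cast hn
  have hQ := Qn_pos h0 h1 n
  unfold uu
  rw [Real.rpow_neg hn0.le]
  have : 0 < (n : ℝ) ^ (1 - 2 * s) := Real.rpow_pos_of_pos hn0 _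
  congr 1
  field_simp

theorem t : C_GLB := by
  intro n s hn h0 h1
  have hm : ∀ m, n ≤ m → uu s n ≤ uu s m := by
    intro m hm
    induction m, hm using Nat.le_induction with
    | base => exact le_rfl
    | succ m hm ih => exact ih.trans (uu_succ h0 h1 (hn.trans hm))
  exact ge_of_tendsto (uu_lim h0 h1) (eventually_atTop.2 ⟨n, hm⟩)

end Pool.Agent.H5PB.GLB
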