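import Pool.Agent.H78.PB.Stm4
import Pool.Agent.N892.BW.REB

/-! # Project PB, part LUN: the weaker conjecture, locally uniformly in the exponent `p ≥ 6` -/

set_option autoImplicit false

open MeasureTheory ENNReal Filter Topology

namespace Pool.Agent.H5PB.LUN

open Pool.Agent.N892.BW Pool.Agent.H78.PB

/-- the inverse exponent on the interval between `2 m` and `2 (m + 1)` -/
noncomputable def iq (m : ℕ) (θ : ℝ) : ℝ := (1 - θ) / (2 * (m : ℝ)) + θ / (2 * ((m : ℝ) + 1))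

theorem iq_eq {m : ℕ} (_hm : 1 ≤ m) (θ : ℝ) :
    iq m θ = 1 / (2 * (m : ℝ)) - θ * (1 / (2 * (m : ℝ)) - 1 / (2 * ((m : ℝ) + 1))) := by
  unfold iq
  ring

theorem slope_pos {m : ℕ} (hm : 1 ≤ m) :
    0 < 1 / (2 * (m : ℝ)) - 1 / (2 * ((m : ℝ) + 1)) := by
  have h1 : (1 : ℝ) ≤ m := by exact_mod_cast hm
  rw [sub_pos]
  exact one_div_lt_one_div_of_lt (by positivity) (by linarith)

theorem iq_le {m : ℕ} (hm : 1 ≤ m) {θ : ℝ} (h0 : 0 ≤ θ) : iq m θ ≤ 1 / (2 * (m : ℝ)) := by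
  rw [iq_eq hm]
  have := mul_nonneg h0 (slope_pos hm).le
  linarith

theorem le_iq {m : ℕ} (hm : 1 ≤ m) {θ : ℝ} (h1 : θ ≤ 1) : 1 / (2 * ((m : ℝ) + 1)) ≤ iq m θ := by
  rw [iq_eq hm]
  have := mul_nonneg (sub_nonneg.2 h1) (slope_pos hm).le
  linarith

theorem iq_pos {m : ℕ} (hm : 1 ≤ m) {θ : ℝ} (h1 : θ ≤ 1) : 0 < iq m θ :=
  lt_of_lt_of_le (by positivity) (le_iq hm h1)

/-- the interpolated constant depends only on the exponent -/
theorem uniq {m m' : ℕ} (hm : 1 ≤ m) (hm' : 1 ≤ m') {θ θ' : ℝ} (h0 : 0 ≤ θ) (h1 : θ ≤ 1)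
    (h0' : 0 ≤ θ') (h1' : θ' ≤ 1) (he : iq m θ = iq m' θ') :
    GA m ^ (1 - θ) * GA (m + 1) ^ θ = GA m' ^ (1 - θ') * GA (m' + 1) ^ θ' := by
  rcases lt_trichotomy m m' with h | h | h
  · have hc : (m : ℝ) + 1 ≤ m' := by exact_mod_cast h
    have a1 := le_iq hm h1
    have a2 := iq_le hm' h0'
    have a3 : 1 / (2 * (m' : ℝ)) ≤ 1 / (2 * ((m : ℝ) + 1)) :=
      one_div_le_one_div_of_le (by positivity) (by linarith)
    have b1 : iq m θ = 1 / (2 * ((m : ℝ) + 1)) := by linarith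
    have b2 : iq m' θ' = 1 / (2 * (m' : ℝ)) := by linarith
    have b3 : 1 / (2 * (m' : ℝ)) = 1 / (2 * ((m : ℝ) + 1)) := by linarith
    have b4 : (m' : ℝ) = m + 1 := by
      have hp : (0 : ℝ) < 2 * (m' : ℝ) := by linarith [(Nat.cast_nonneg m : (0 : ℝ) ≤ m)]
      have hq : (0 : ℝ) < 2 * ((m : ℝ) + 1) := by positivity
      rw [div_eq_div_iff hp.ne' hq.ne'] at b3
      linarith
    have b5 : m' = m + 1 := by exact_mod_cast b4
    have c1 : θ = 1 := by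
      rw [iq_eq hm] at b1
      have h5 : (1 - θ) * (1 / (2 * (m : ℝ)) - 1 / (2 * ((m : ℝ) + 1))) = 0 := by linarith
      rcases mul_eq_zero.1 h5 with h6 | h6
      · linarith
      · exact absurd h6 (slope_pos hm).ne'
    have c2 : θ' = 0 := by
      rw [iq_eq hm'] at b2
      have h5 : θ' * (1 / (2 * (m' : ℝ)) - 1 / (2 * ((m' : ℝ) + 1))) = 0 := by linarith
      rcases mul_eq_zero.1 h5 with h6 | h6
      · exact h6
      · exact absurd h6 (slope_pos hm').ne'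
    rw [c1, c2, b5]
    simp
  · subst h
    have h5 : (θ - θ') * (1 / (2 * (m : ℝ)) - 1 / (2 * ((m : ℝ) + 1))) = 0 := by
      rw [iq_eq hm, iq_eq hm] at he
      linarith
    rcases mul_eq_zero.1 h5 with h6 | h6
    · have : θ = θ' := by linarith
      rw [this]
    · exact absurd h6 (slope_pos hm).ne'
  · have hc : (m' : ℝ) + 1 ≤ m := by exact_mod_cast h
    have a1 := le_iq hm' h1'
    have a2 := iq_le hm h0
    have a3 : 1 / (2 * (m : ℝ)) ≤ 1 / (2 * ((m' : ℝ) + 1)) :=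
      one_div_le_one_div_of_le (by positivity) (by linarith)
    have b1 : iq m' θ' = 1 / (2 * ((m' : ℝ) + 1)) := by linarith
    have b2 : iq m θ = 1 / (2 * (m : ℝ)) := by linarith
    have b3 : 1 / (2 * (m : ℝ)) = 1 / (2 * ((m' : ℝ) + 1)) := by linarith
    have b4 : (m : ℝ) = m' + 1 := by
      have hp : (0 : ℝ) < 2 * (m : ℝ) := by linarith [(Nat.cast_nonneg m' : (0 : ℝ) ≤ m')]
      have hq : (0 : ℝ) < 2 * ((m' : ℝ) + 1) := by positivity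
      rw [div_eq_div_iff hp.ne' hq.ne'] at b3
      linarith
    have b5 : m = m' + 1 := by exact_mod_cast b4
    have c1 : θ' = 1 := by
      rw [iq_eq hm'] at b1
      have h5 : (1 - θ') * (1 / (2 * (m' : ℝ)) - 1 / (2 * ((m' : ℝ) + 1))) = 0 := by linarith
      rcases mul_eq_zero.1 h5 with h6 | h6
      · linarith
      · exact absurd h6 (slope_pos hm').ne'
    have c2 : θ = 0 := by
      rw [iq_eq hm] at b2
      have h5 : θ * (1 / (2 * (m : ℝ)) - 1 / (2 * ((m : ℝ) + 1))) = 0 := by linarith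
      rcases mul_eq_zero.1 h5 with h6 | h6
      · exact h6
      · exact absurd h6 (slope_pos hm).ne'
    rw [c1, c2, b5]
    simp

/-- the interpolated constant -/
noncomputable def Gi (m : ℕ) (θ : ℝ) : ℝ := GA m ^ (1 - θ) * GA (m + 1) ^ θ

theorem Gi_pos {m : ℕ} (hm : 1 ≤ m) (θ : ℝ) : 0 < Gi m θ :=
  mul_pos (Real.rpow_pos_of_pos (REB.GA_pos hm) _) (Real.rpow_pos_of_pos (REB.GA_pos (by omega)) _)

theorem Gi_cont {m : ℕ} (hm : 1 ≤ m) : Continuous (Gi m) := by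
  unfold Gi
  refine Continuous.mul ?_ ?_
  · exact Continuous.rpow continuous_const (by fun_prop) fun _ => Or.inl (REB.GA_pos hm).ne'
  · exact Continuous.rpow continuous_const (by fun_prop)
      fun _ => Or.inl (REB.GA_pos (m := m + 1) (by omega)).ne'

theorem iq_cont (m : ℕ) : Continuous (iq m) := by
  unfold iq
  fun_prop

/-- the strict inequality at every point of the interval -/
theorem strict (h4 : S_NUI) {m : ℕ} (hm : 3 ≤ m) {θ : ℝ} (h0 : 0 ≤ θ) (h1 : θ ≤ 1) :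
    Gi m θ < 1 / iq m θ - 1 := by
  have hm1 : 1 ≤ m := by omega
  have hm3 : (3 : ℝ) ≤ m := by exact_mod_cast hm
  have hi : 0 < iq m θ := iq_pos hm1 h1
  have h6 : (6 : ℝ) ≤ 1 / iq m θ := by
    rw [le_div_iff₀ hi]
    have := iq_le hm1 h0
    have h7 : 1 / (2 * (m : ℝ)) ≤ 1 / 6 := one_div_le_one_div_of_le (by norm_num) (by linarith)
    linarith
  obtain ⟨m', θ', hm', h0', h1', he, hG⟩ := h4 (1 / iq m θ) (Or.inr (by linarith))
  rw [one_div_one_div] at he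
  unfold Gi
  rw [uniq hm1 hm' h0 h1 h0' h1' he]
  exact hG

/-- uniform margin on the interval -/
theorem margin (h4 : S_NUI) {m : ℕ} (hm : 3 ≤ m) :
    ∃ ε : ℝ, 0 < ε ∧ ∀ θ : ℝ, 0 ≤ θ → θ ≤ 1 → (1 + ε) ^ 2 * Gi m θ ≤ 1 / iq m θ - 1 := by
  have hm1 : 1 ≤ m := by omega
  have hc : ContinuousOn (fun θ : ℝ => (1 / iq m θ - 1) / Gi m θ) (Set.Icc 0 1) := by
    refine ContinuousOn.div ?_ (Gi_cont hm1).continuousOn fun x _ => (Gi_pos hm1 x).ne'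
    refine ContinuousOn.sub ?_ continuousOn_const
    exact ContinuousOn.div continuousOn_const (iq_cont m).continuousOn
      fun x hx => (iq_pos hm1 hx.2).ne'
  obtain ⟨x, hx, hmin⟩ := isCompact_Icc.exists_isMinOn (Set.nonempty_Icc.2 (zero_le_one' ℝ)) hc
  obtain ⟨r, hr⟩ : ∃ r : ℝ, r = (1 / iq m x - 1) / Gi m x := ⟨_, rfl⟩
  have hr1 : 1 < r := by
    rw [hr, lt_div_iff₀ (Gi_pos hm1 x), one_mul]
    exact strict h4 hm hx.1 hx.2
  obtain ⟨ε, hε⟩ : ∃ ε : ℝ, ε = min ((r - 1) / 3) 1 := ⟨_, rfl⟩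
  have e0 : 0 < ε := by
    rw [hε]
    exact lt_min (by linarith) one_pos
  have e1 : ε ≤ (r - 1) / 3 := by rw [hε]; exact min_le_left _ _
  have e2 : ε ≤ 1 := by rw [hε]; exact min_le_right _ _
  have e3 : (1 + ε) ^ 2 ≤ r := by nlinarith
  refine ⟨ε, e0, fun θ h0 h1 => ?_⟩
  have h5 : r ≤ (1 / iq m θ - 1) / Gi m θ := by
    rw [hr]
    exact hmin (show θ ∈ Set.Icc (0 : ℝ) 1 from ⟨h0, h1⟩)
  rw [le_div_iff₀ (Gi_pos hm1 θ)] at h5
  exact (mul_le_mul_of_nonneg_right e3 (Gi_pos hm1 θ).le).trans h5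

/-- the inequality on one interval -/
theorem one (h1 : S_FUL) (h2 : S_PLZ) (h3 : S_RTT) (h4 : S_NUI) {m : ℕ} (hm : 3 ≤ m) :
    ∃ n₀ : ℕ, ∀ n : ℕ, n₀ ≤ n → ∀ θ : ℝ, 0 ≤ θ → θ ≤ 1 → ∀ p : ℝ, 1 / p = iq m θ →
      ∀ f : SchwartzMap ℂ ℂ,
      eLpNorm (TS n f) (ENNReal.ofReal p) volume ≤
        ENNReal.ofReal ((n : ℝ) ^ (1 - 2 / p) * (p - 1)) *
          eLpNorm (fun z : ℂ => f z) (ENNReal.ofReal p) volume := by
  have hm1 : 1 ≤ m := by omega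
  have hm0 : (3 : ℝ) ≤ m := by exact_mod_cast hm
  obtain ⟨ε, e0, hmar⟩ := margin h4 hm
  have hGa : 0 < GA m := REB.GA_pos hm1
  have hGb : 0 < GA (m + 1) := REB.GA_pos (by omega)
  obtain ⟨n₀, hn₀⟩ := REB.ev h1 h2 hm1 e0
  obtain ⟨n₁, hn₁⟩ := REB.ev h1 h2 (m := m + 1) (by omega) e0
  refine ⟨max (max n₀ n₁) 1, fun n hn θ hθ0 hθ1 p he f => ?_⟩
  have hpe : p = 1 / iq m θ := by rw [← he, one_div_one_div]
  have hG := hmar θ hθ0 hθ1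
  rw [← hpe] at hG
  have hn1 : 1 ≤ n := (le_max_right _ _).trans hn
  have hnp : (0 : ℝ) < n := by exact_mod_cast hn1
  have ha := hn₀ n (((le_max_left _ _).trans (le_max_left _ _)).trans hn)
  have hb := hn₁ n (((le_max_right _ _).trans (le_max_left _ _)).trans hn)
  have hs : (0 : ℝ) < (1 + ε) ^ 2 := by positivity
  have hK0 : 0 < (1 + ε) ^ 2 * AA m n :=
    mul_pos hs (mul_pos (Real.rpow_pos_of_pos hnp _) hGa)
  have hK1 : 0 < (1 + ε) ^ 2 * AA (m + 1) n :=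
    mul_pos hs (mul_pos (Real.rpow_pos_of_pos hnp _) hGb)
  have he' : 1 / p = (1 - θ) / (2 * (m : ℝ)) + θ / (2 * ((m : ℝ) + 1)) := he
  have hmain := h3 n (2 * m) (2 * ((m + 1 : ℕ) : ℝ)) p θ _ _ (by linarith)
    (by push_cast; linarith) hθ0 hθ1 (by push_cast; exact he') hK0 hK1 ha hb f
  refine hmain.trans (mul_le_mul' (ENNReal.ofReal_le_ofReal ?_) le_rfl)
  have hx : (1 - θ) * (1 - 1 / (m : ℝ)) + θ * (1 - 1 / ((m + 1 : ℕ) : ℝ)) = 1 - 2 / p := by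
    have h5 : (2 : ℝ) / p = (1 - θ) / m + θ / (m + 1) := by
      have h6 : (2 : ℝ) / p = 2 * (1 / p) := by ring
      rw [h6, he']
      have h7 : (m : ℝ) ≠ 0 := by positivity
      have h8 : (m : ℝ) + 1 ≠ 0 := by positivity
      field_simp
    rw [h5]
    push_cast
    ring
  have hK : ((1 + ε) ^ 2 * AA m n) ^ (1 - θ) * ((1 + ε) ^ 2 * AA (m + 1) n) ^ θ =
      (1 + ε) ^ 2 * ((n : ℝ) ^ (1 - 2 / p) * Gi m θ) := by
    unfold AA
    have p1 : (0 : ℝ) ≤ (n : ℝ) ^ (1 - 1 / (m : ℝ)) := (Real.rpow_pos_of_pos hnp _).le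
    have p2 : (0 : ℝ) ≤ (n : ℝ) ^ (1 - 1 / ((m + 1 : ℕ) : ℝ)) := (Real.rpow_pos_of_pos hnp _).le
    rw [Real.mul_rpow hs.le (mul_nonneg p1 hGa.le), Real.mul_rpow p1 hGa.le,
      Real.mul_rpow hs.le (mul_nonneg p2 hGb.le), Real.mul_rpow p2 hGb.le,
      ← Real.rpow_mul hnp.le, ← Real.rpow_mul hnp.le]
    have q1 : ((1 + ε) ^ 2) ^ (1 - θ) * ((1 + ε) ^ 2) ^ θ = (1 + ε) ^ 2 := by
      rw [← Real.rpow_add hs]
      rw [sub_add_cancel, Real.rpow_one]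
    have q2 : (n : ℝ) ^ ((1 - 1 / (m : ℝ)) * (1 - θ)) *
        (n : ℝ) ^ ((1 - 1 / ((m + 1 : ℕ) : ℝ)) * θ) = (n : ℝ) ^ (1 - 2 / p) := by
      rw [← Real.rpow_add hnp]
      congr 1
      rw [← hx]
      ring
    calc ((1 + ε) ^ 2) ^ (1 - θ) * ((n : ℝ) ^ ((1 - 1 / (m : ℝ)) * (1 - θ)) * GA m ^ (1 - θ)) *
          (((1 + ε) ^ 2) ^ θ * ((n : ℝ) ^ ((1 - 1 / ((m + 1 : ℕ) : ℝ)) * θ) * GA (m + 1) ^ θ))
        = (((1 + ε) ^ 2) ^ (1 - θ) * ((1 + ε) ^ 2) ^ θ) *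
          (((n : ℝ) ^ ((1 - 1 / (m : ℝ)) * (1 - θ)) *
            (n : ℝ) ^ ((1 - 1 / ((m + 1 : ℕ) : ℝ)) * θ)) *
            (GA m ^ (1 - θ) * GA (m + 1) ^ θ)) := by ring
      _ = _ := by rw [q1, q2]; rfl
  rw [hK]
  have hnn : (0 : ℝ) ≤ (n : ℝ) ^ (1 - 2 / p) := (Real.rpow_pos_of_pos hnp _).le
  calc (1 + ε) ^ 2 * ((n : ℝ) ^ (1 - 2 / p) * Gi m θ)
      = (n : ℝ) ^ (1 - 2 / p) * ((1 + ε) ^ 2 * Gi m θ) := by ring
    _ ≤ (n : ℝ) ^ (1 - 2 / p) * (p - 1) := mul_le_mul_of_nonneg_left hG hnn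

/-- every exponent `p ≥ 6` lies in one of the intervals -/
theorem cover {p : ℝ} (hp : 6 ≤ p) :
    ∃ θ : ℝ, 0 ≤ θ ∧ θ ≤ 1 ∧ 1 / p = iq ⌊p / 2⌋₊ θ ∧ 3 ≤ ⌊p / 2⌋₊ := by
  obtain ⟨m, hm⟩ : ∃ m : ℕ, m = ⌊p / 2⌋₊ := ⟨_, rfl⟩
  rw [← hm]
  have h1 : (m : ℝ) ≤ p / 2 := by rw [hm]; exact Nat.floor_le (by linarith)
  have h2 : p / 2 < m + 1 := by rw [hm]; exact Nat.lt_floor_add_one _
  have h3 : 3 ≤ m := by
    rw [hm]
    exact Nat.le_floor (by push_cast; linarith)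
  have hm1 : 1 ≤ m := by omega
  have h3' : (3 : ℝ) ≤ m := by exact_mod_cast h3
  have hs := slope_pos hm1
  refine ⟨(1 / (2 * (m : ℝ)) - 1 / p) / (1 / (2 * (m : ℝ)) - 1 / (2 * ((m : ℝ) + 1))), ?_, ?_, ?_, h3⟩
  · apply div_nonneg _ hs.le
    rw [sub_nonneg]
    exact one_div_le_one_div_of_le (by positivity) (by linarith)
  · rw [div_le_one hs]
    have : 1 / (2 * ((m : ℝ) + 1)) ≤ 1 / p := one_div_le_one_div_of_le (by linarith) (by linarith)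
    linarith
  · rw [iq_eq hm1, div_mul_cancel₀ _ hs.ne']
    ring

theorem t (h1 : S_FUL) (h2 : S_PLZ) (h3 : S_RTT) (h4 : S_NUI) : C_LUN := by
  intro P
  have hex : ∀ m : ℕ, ∃ n₀ : ℕ, 3 ≤ m → ∀ n : ℕ, n₀ ≤ n → ∀ θ : ℝ, 0 ≤ θ → θ ≤ 1 →
      ∀ p : ℝ, 1 / p = iq m θ → ∀ f : SchwartzMap ℂ ℂ,
      eLpNorm (TS n f) (ENNReal.ofReal p) volume ≤
        ENNReal.ofReal ((n : ℝ) ^ (1 - 2 / p) * (p - 1)) *
          eLpNorm (fun z : ℂ => f z) (ENNReal.ofReal p) volume := by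
    intro m
    by_cases hm : 3 ≤ m
    · obtain ⟨n₀, hn₀⟩ := one h1 h2 h3 h4 hm
      exact ⟨n₀, fun _ => hn₀⟩
    · exact ⟨0, fun h => absurd h hm⟩
  choose N hN using hex
  refine ⟨(Finset.range (⌊P / 2⌋₊ + 1)).sup N, fun n hn p hp6 hpP f => ?_⟩
  obtain ⟨θ, hθ0, hθ1, he, hm3⟩ := cover hp6
  refine hN ⌊p / 2⌋₊ hm3 n ?_ θ hθ0 hθ1 p he f
  refine le_trans ?_ hn
  refine Finset.le_sup (f := N) (Finset.mem_range.2 ?_)
  exact Nat.lt_succ_of_le (Nat.floor_le_floor (by linarith))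

end Pool.Agent.H5PB.LUN
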