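import Pool.Agent.H5PB.Cos

/-! Project PB, stub NU: the Fourier transform of `(1 + y²)² p1` is nonnegative. -/

set_option autoImplicit false

open MeasureTheory Filter Topology Set
open Pool.Agent.H78.PB Pool.Agent.H5PB.Cos

namespace Pool.Agent.H5PB.NU

/-- uniqueness of the derivative on the open half line -/
theorem uniq {f g : ℝ → ℝ} {f' g' t : ℝ} (ht : 0 < t) (h : ∀ x, 0 < x → f x = g x)
    (hf : HasDerivAt f f' t) (hg : HasDerivAt g g' t) : f' = g' := by
  have : f =ᶠ[𝓝 t] g := Filter.eventually_of_mem (Ioi_mem_nhds ht) fun x hx => h x hx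
  exact hf.unique (hg.congr_of_eventuallyEq this)

theorem t (h1 : P_KRN) (h2 : P_MOM) (h3 : P_NUP) : P_NU := by
  intro θ hθ0 hθ1
  have hp := p1_cont hθ0 hθ1
  have hi := fun k => ((h1 θ hθ0 hθ1).1 k).2
  have hphi := (h2 θ hθ0 hθ1).2.2.1
  have hC := dC hp hi
  have hS := dS hp hi
  set C : ℕ → ℝ → ℝ := fun k t => ∫ y, p1 θ y * y ^ k * Real.cos (t * y) with hCdef
  set S : ℕ → ℝ → ℝ := fun k t => ∫ y, p1 θ y * y ^ k * Real.sin (t * y) with hSdef
  have dC' : ∀ k t, HasDerivAt (C k) (-S (k + 1) t) t := hC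
  have dS' : ∀ k t, HasDerivAt (S k) (C (k + 1) t) t := hS
  have hs : ∀ t, HasDerivAt Real.sinh (Real.cosh t) t := Real.hasDerivAt_sinh
  have hc : ∀ t, HasDerivAt Real.cosh (Real.sinh t) t := Real.hasDerivAt_cosh
  have hl : ∀ t : ℝ, HasDerivAt (fun y : ℝ => θ * y) θ t := fun t => by
    simpa using (hasDerivAt_id t).const_mul θ
  have hSh : ∀ t, HasDerivAt (fun y => Real.sinh (θ * y)) (Real.cosh (θ * t) * θ) t :=
    fun t => (Real.hasDerivAt_sinh _).comp t (hl t)
  have hCh : ∀ t, HasDerivAt (fun y => Real.cosh (θ * y)) (Real.sinh (θ * t) * θ) t :=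
    fun t => (Real.hasDerivAt_cosh _).comp t (hl t)
  have e0 : ∀ t, 0 < t → C 0 t * Real.sinh t = Real.sinh (θ * t) := by
    intro t ht
    have := hphi t ht.ne'
    have h4 : Real.sinh t ≠ 0 := (Real.sinh_pos_iff.2 ht).ne'
    have h5 : C 0 t = Real.sinh (θ * t) / Real.sinh t := by
      rw [← this, hCdef]
      simp
    rw [h5]
    field_simp
  have e1 : ∀ t, 0 < t → -S 1 t * Real.sinh t + C 0 t * Real.cosh t = Real.cosh (θ * t) * θ :=
    fun t ht => uniq (f := fun t => C 0 t * Real.sinh t) ht e0 ((dC' 0 t).mul (hs t)) (hSh t)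
  have e2 : ∀ t, 0 < t → -C 2 t * Real.sinh t + -S 1 t * Real.cosh t +
      (-S 1 t * Real.cosh t + C 0 t * Real.sinh t) = Real.sinh (θ * t) * θ * θ :=
    fun t ht => uniq (f := fun t => -S 1 t * Real.sinh t + C 0 t * Real.cosh t)
      (g := fun t => Real.cosh (θ * t) * θ) ht e1
      (((dS' 1 t).neg.mul (hs t)).add ((dC' 0 t).mul (hc t))) ((hCh t).mul_const θ)
  have e3 : ∀ t, 0 < t → (S 3 t * Real.sinh t + -C 2 t * Real.cosh t +
      (-C 2 t * Real.cosh t + -S 1 t * Real.sinh t)) +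
      ((-C 2 t * Real.cosh t + -S 1 t * Real.sinh t) + (-S 1 t * Real.sinh t + C 0 t * Real.cosh t)) =
      Real.cosh (θ * t) * θ * θ * θ := by
    intro t ht
    have := uniq (f := fun t => -C 2 t * Real.sinh t + -S 1 t * Real.cosh t +
        (-S 1 t * Real.cosh t + C 0 t * Real.sinh t)) (g := fun t => Real.sinh (θ * t) * θ * θ) ht e2
      ((((dC' 2 t).neg.mul (hs t)).add ((dS' 1 t).neg.mul (hc t))).add
        (((dS' 1 t).neg.mul (hc t)).add ((dC' 0 t).mul (hs t)))) (((hSh t).mul_const θ).mul_const θ)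
    simp only [neg_neg] at this
    exact this
  have e4 : ∀ t, 0 < t → C 4 t * Real.sinh t + 4 * S 3 t * Real.cosh t - 6 * C 2 t * Real.sinh t -
      4 * S 1 t * Real.cosh t + C 0 t * Real.sinh t = Real.sinh (θ * t) * θ * θ * θ * θ := by
    intro t ht
    have := uniq (f := fun t => (S 3 t * Real.sinh t + -C 2 t * Real.cosh t +
      (-C 2 t * Real.cosh t + -S 1 t * Real.sinh t)) +
      ((-C 2 t * Real.cosh t + -S 1 t * Real.sinh t) + (-S 1 t * Real.sinh t + C 0 t * Real.cosh t)))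
        (g := fun t => Real.cosh (θ * t) * θ * θ * θ) ht e3
      (((((dS' 3 t).mul (hs t)).add ((dC' 2 t).neg.mul (hc t))).add
        (((dC' 2 t).neg.mul (hc t)).add ((dS' 1 t).neg.mul (hs t)))).add
      ((((dC' 2 t).neg.mul (hc t)).add ((dS' 1 t).neg.mul (hs t))).add
        (((dS' 1 t).neg.mul (hs t)).add ((dC' 0 t).mul (hc t)))))
      ((((hCh t).mul_const θ).mul_const θ).mul_const θ)
    rw [← this]
    norm_num
    ring
  have hpos : ∀ t, 0 < t → 0 ≤ C 0 t + 2 * C 2 t + C 4 t := by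
    intro t ht
    have hsp : 0 < Real.sinh t := Real.sinh_pos_iff.2 ht
    have hcs : Real.cosh t ^ 2 = 1 + Real.sinh t ^ 2 := by rw [Real.cosh_sq]; ring
    have g0 := e0 t ht
    have g1 := e1 t ht
    have g2 := e2 t ht
    have g3 := e3 t ht
    have g4 := e4 t ht
    have hE := h3 θ t hθ0 hθ1 ht
    generalize Real.sinh (θ * t) = Sg at *
    generalize Real.cosh (θ * t) = Cg at *
    generalize Real.sinh t = s at *
    generalize Real.cosh t = c at *
    generalize C 0 t = a0 at *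
    generalize S 1 t = b1 at *
    generalize C 2 t = a2 at *
    generalize S 3 t = b3 at *
    generalize C 4 t = a4 at *
    have k1 : b1 * s ^ 2 = c * Sg - θ * Cg * s := by linear_combination (-s) * g1 + c * g0
    have k2 : a2 * s ^ 3 = -(θ ^ 2 * Sg * s ^ 2) - 2 * c * (c * Sg - θ * Cg * s) + s ^ 2 * Sg := by
      linear_combination (-s ^ 2) * g2 - 2 * c * k1 + s ^ 2 * g0
    have k3 : b3 * s ^ 4 = θ ^ 3 * Cg * s ^ 3 + 3 * c * (a2 * s ^ 3) + 3 * s ^ 2 * (b1 * s ^ 2) -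
        c * s ^ 2 * Sg := by
      linear_combination (s ^ 3) * g3 - c * s ^ 2 * g0
    have k4 : a4 * s ^ 5 = θ ^ 4 * Sg * s ^ 4 - 4 * c * (b3 * s ^ 4) + 6 * s ^ 2 * (a2 * s ^ 3) +
        4 * c * s ^ 2 * (b1 * s ^ 2) - Sg * s ^ 4 := by
      linear_combination (s ^ 4) * g4 - s ^ 4 * g0
    have k0 : a0 * s ^ 5 = Sg * s ^ 4 := by linear_combination (s ^ 4) * g0
    have hfin : (a0 + 2 * a2 + a4) * s ^ 5 =
        θ ^ 2 * (4 + θ ^ 2) * Sg * s ^ 4 + (16 + 12 * θ ^ 2) * Sg * s ^ 2 + 24 * Sg -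
          4 * θ ^ 3 * Cg * c * s ^ 3 - 24 * θ * Cg * c * s := by
      have : (a0 + 2 * a2 + a4) * s ^ 5 = a0 * s ^ 5 + 2 * s ^ 2 * (a2 * s ^ 3) + a4 * s ^ 5 := by ring
      rw [this, k4, k3, k2, k1, k0]
      have hc4 : c ^ 4 = (1 + s ^ 2) ^ 2 := by rw [← hcs]; ring
      have hc3 : c ^ 3 = c * (1 + s ^ 2) := by rw [← hcs]; ring
      ring_nf
      rw [hc4, hc3, hcs]
      ring
    have h5 : 0 ≤ (a0 + 2 * a2 + a4) * s ^ 5 := by rw [hfin]; exact hE
    exact nonneg_of_mul_nonneg_left h5 (by positivity)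
  have hcomb : ∀ t, (∫ y, p1 θ y * (1 + y ^ 2) ^ 2 * Real.cos (t * y)) = C 0 t + 2 * C 2 t + C 4 t := by
    intro t
    have i0 := int_mul hp hi 0 (g := fun y => Real.cos (t * y)) (by fun_prop)
      fun y => Real.abs_cos_le_one _
    have i2 := int_mul hp hi 2 (g := fun y => Real.cos (t * y)) (by fun_prop)
      fun y => Real.abs_cos_le_one _
    have i4 := int_mul hp hi 4 (g := fun y => Real.cos (t * y)) (by fun_prop)
      fun y => Real.abs_cos_le_one _
    rw [hCdef]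
    simp only
    have i02 : Integrable (fun y => p1 θ y * y ^ 0 * Real.cos (t * y) +
        2 * (p1 θ y * y ^ 2 * Real.cos (t * y))) := i0.add (i2.const_mul 2)
    rw [← integral_const_mul, ← integral_add i0 (i2.const_mul 2), ← integral_add i02 i4]
    congr 1
    ext y
    ring
  intro t
  rcases lt_trichotomy t 0 with h | h | h
  · have e : (∫ y, p1 θ y * (1 + y ^ 2) ^ 2 * Real.cos (t * y)) =
        ∫ y, p1 θ y * (1 + y ^ 2) ^ 2 * Real.cos (-t * y) := by
      congr 1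
      ext y
      rw [neg_mul, Real.cos_neg]
    rw [e, hcomb]
    exact hpos (-t) (by linarith)
  · subst h
    refine integral_nonneg fun y => ?_
    have := p1_pos hθ0 hθ1 y
    simp only [zero_mul, Real.cos_zero, mul_one]
    positivity
  · rw [hcomb]
    exact hpos t h

end Pool.Agent.H5PB.NU
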