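import Pool.Agent.H78.PB.Stm2

/-! Project PB, stub NUP: an inequality for hyperbolic functions. -/

set_option autoImplicit false

open Real Set

namespace Pool.Agent.H5PB.NUP

/-- the polynomial part -/
theorem qid (x σ : ℝ) (hx0 : 0 ≤ x) (hx1 : x ≤ 1) (hσ : 0 ≤ σ) :
    0 ≤ (24 + (16 + 12 * x) * σ + x * (4 + x) * σ ^ 2) ^ 2 - x * (σ * (1 + σ)) * (24 + 4 * x * σ) ^ 2 -
      (24 + (16 + 12 * x) * σ + x * (4 + x) * σ ^ 2) *
        ((1 + 2 * σ) * (24 + 4 * x * σ) + 8 * x * (σ * (1 + σ))) +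
      2 * (σ * (1 + σ)) * (24 + 4 * x * σ) * ((16 + 12 * x) + 2 * x * (4 + x) * σ) := by
  have e : (24 + (16 + 12 * x) * σ + x * (4 + x) * σ ^ 2) ^ 2 - x * (σ * (1 + σ)) * (24 + 4 * x * σ) ^ 2 -
      (24 + (16 + 12 * x) * σ + x * (4 + x) * σ ^ 2) *
        ((1 + 2 * σ) * (24 + 4 * x * σ) + 8 * x * (σ * (1 + σ))) +
      2 * (σ * (1 + σ)) * (24 + 4 * x * σ) * ((16 + 12 * x) + 2 * x * (4 + x) * σ) =
      σ ^ 2 * (256 - 160 * x + 24 * x ^ 2) + σ ^ 3 * (192 * x - 96 * x ^ 2 + 12 * x ^ 3) +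
        σ ^ 4 * (16 * x ^ 2 - 8 * x ^ 3 + x ^ 4) := by
    ring
  rw [e]
  have h1 : 0 ≤ 256 - 160 * x + 24 * x ^ 2 := by nlinarith
  have h2 : 0 ≤ 192 * x - 96 * x ^ 2 + 12 * x ^ 3 := by
    have : 0 ≤ x * (192 - 96 * x + 12 * x ^ 2) := mul_nonneg hx0 (by nlinarith)
    nlinarith
  have h3 : 0 ≤ 16 * x ^ 2 - 8 * x ^ 3 + x ^ 4 := by
    have : 0 ≤ x ^ 2 * (4 - x) ^ 2 := by positivity
    nlinarith
  positivity

/-- the denominator -/
noncomputable def dd (θ t : ℝ) : ℝ :=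
  24 + (16 + 12 * θ ^ 2) * sinh t ^ 2 + θ ^ 2 * (4 + θ ^ 2) * sinh t ^ 4

/-- the numerator -/
noncomputable def mm (θ t : ℝ) : ℝ :=
  θ * (cosh t * sinh t) * (24 + 4 * θ ^ 2 * sinh t ^ 2)

/-- derivative of `dd` -/
noncomputable def dd' (θ t : ℝ) : ℝ :=
  2 * (cosh t * sinh t) * ((16 + 12 * θ ^ 2) + 2 * θ ^ 2 * (4 + θ ^ 2) * sinh t ^ 2)

/-- derivative of `mm` -/
noncomputable def mm' (θ t : ℝ) : ℝ :=
  θ * ((cosh t ^ 2 + sinh t ^ 2) * (24 + 4 * θ ^ 2 * sinh t ^ 2) +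
    8 * θ ^ 2 * (cosh t * sinh t) ^ 2)

theorem hdd (θ t : ℝ) : HasDerivAt (dd θ) (dd' θ t) t := by
  have h := hasDerivAt_sinh t
  have h2 := ((h.pow 2).const_mul (16 + 12 * θ ^ 2)).const_add 24
  have h4 := (h.pow 4).const_mul (θ ^ 2 * (4 + θ ^ 2))
  have := h2.add h4
  refine this.congr_deriv ?_ |>.congr_of_eventuallyEq ?_
  · unfold dd'; push_cast; ring
  · exact Filter.Eventually.of_forall fun y => by simp [dd]

theorem hmm (θ t : ℝ) : HasDerivAt (mm θ) (mm' θ t) t := by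
  have h := hasDerivAt_sinh t
  have hc := hasDerivAt_cosh t
  have h2 := ((h.pow 2).const_mul (4 * θ ^ 2)).const_add 24
  have h4 := (hc.mul h).const_mul θ
  have := h4.mul h2
  refine this.congr_deriv ?_ |>.congr_of_eventuallyEq ?_
  · unfold mm'; push_cast
    simp only [Pi.mul_apply, Pi.pow_apply]
    ring
  · exact Filter.Eventually.of_forall fun y => by simp [mm]

/-- the function -/
noncomputable def ee (θ t : ℝ) : ℝ := sinh (θ * t) * dd θ t - cosh (θ * t) * mm θ t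

/-- its derivative -/
noncomputable def ee' (θ t : ℝ) : ℝ :=
  θ * cosh (θ * t) * dd θ t + sinh (θ * t) * dd' θ t -
    (θ * sinh (θ * t) * mm θ t + cosh (θ * t) * mm' θ t)

theorem hee (θ t : ℝ) : HasDerivAt (ee θ) (ee' θ t) t := by
  have hl : HasDerivAt (fun y : ℝ => θ * y) θ t := by
    simpa using (hasDerivAt_id t).const_mul θ
  have h1 : HasDerivAt (fun y => sinh (θ * y)) (cosh (θ * t) * θ) t := (hasDerivAt_sinh _).comp t hl
  have h2 : HasDerivAt (fun y => cosh (θ * y)) (sinh (θ * t) * θ) t := (hasDerivAt_cosh _).comp t hl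
  have := (h1.mul (hdd θ t)).sub (h2.mul (hmm θ t))
  refine this.congr_deriv ?_ |>.congr_of_eventuallyEq ?_
  · unfold ee'; ring
  · exact Filter.Eventually.of_forall fun y => by simp [ee]

theorem dd_pos (θ t : ℝ) : 0 < dd θ t := by unfold dd; positivity

theorem key {θ t ε : ℝ} (h0 : 0 < θ) (h1 : θ < 1) (ht : 0 ≤ t) (hε : 0 < ε)
    (h : -ee θ t = ε * (t * dd θ t)) : -ee' θ t < ε * (dd θ t + t * dd' θ t) := by
  have hD := dd_pos θ t
  have hs : 0 ≤ sinh t := sinh_nonneg_iff.2 ht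
  have hc : 0 < cosh t := cosh_pos t
  have hM : 0 ≤ mm θ t := by unfold mm; positivity
  have hC : 0 < cosh (θ * t) := cosh_pos _
  have hcs : cosh t ^ 2 = 1 + sinh t ^ 2 := by rw [cosh_sq]; ring
  have hQ := qid (θ ^ 2) (sinh t ^ 2) (by positivity) (by nlinarith) (by positivity)
  have e1 : dd θ t * ee' θ t - (dd' θ t - θ * mm θ t) * ee θ t =
      cosh (θ * t) * (θ * dd θ t ^ 2 - θ * mm θ t ^ 2 - dd θ t * mm' θ t + mm θ t * dd' θ t) := by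
    unfold ee ee'; ring
  have e2 : θ * dd θ t ^ 2 - θ * mm θ t ^ 2 - dd θ t * mm' θ t + mm θ t * dd' θ t =
      θ * ((24 + (16 + 12 * θ ^ 2) * sinh t ^ 2 + θ ^ 2 * (4 + θ ^ 2) * (sinh t ^ 2) ^ 2) ^ 2 -
        θ ^ 2 * (sinh t ^ 2 * (1 + sinh t ^ 2)) * (24 + 4 * θ ^ 2 * sinh t ^ 2) ^ 2 -
      (24 + (16 + 12 * θ ^ 2) * sinh t ^ 2 + θ ^ 2 * (4 + θ ^ 2) * (sinh t ^ 2) ^ 2) *
        ((1 + 2 * sinh t ^ 2) * (24 + 4 * θ ^ 2 * sinh t ^ 2) +
          8 * θ ^ 2 * (sinh t ^ 2 * (1 + sinh t ^ 2))) +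
      2 * (sinh t ^ 2 * (1 + sinh t ^ 2)) * (24 + 4 * θ ^ 2 * sinh t ^ 2) *
        ((16 + 12 * θ ^ 2) + 2 * θ ^ 2 * (4 + θ ^ 2) * sinh t ^ 2)) := by
    have f1 : dd θ t = 24 + (16 + 12 * θ ^ 2) * sinh t ^ 2 + θ ^ 2 * (4 + θ ^ 2) * (sinh t ^ 2) ^ 2 := by
      unfold dd; ring
    have f2 : mm θ t ^ 2 = θ ^ 2 * (sinh t ^ 2 * (1 + sinh t ^ 2)) * (24 + 4 * θ ^ 2 * sinh t ^ 2) ^ 2 := by
      unfold mm; rw [← hcs]; ring
    have f3 : mm' θ t = θ * ((1 + 2 * sinh t ^ 2) * (24 + 4 * θ ^ 2 * sinh t ^ 2) +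
        8 * θ ^ 2 * (sinh t ^ 2 * (1 + sinh t ^ 2))) := by
      unfold mm'; rw [mul_pow, hcs]; ring
    have f4 : mm θ t * dd' θ t = θ * (2 * (sinh t ^ 2 * (1 + sinh t ^ 2)) *
        (24 + 4 * θ ^ 2 * sinh t ^ 2) * ((16 + 12 * θ ^ 2) + 2 * θ ^ 2 * (4 + θ ^ 2) * sinh t ^ 2)) := by
      unfold mm dd'; rw [← hcs]; ring
    rw [f2, f3, f4, f1]; ring
  have h3 : 0 ≤ dd θ t * (ee' θ t + ε * (t * dd' θ t)) := by
    have h4 : ee θ t = -(ε * (t * dd θ t)) := by linarith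
    have h5 : dd θ t * (ee' θ t + ε * (t * dd' θ t)) =
        cosh (θ * t) * (θ * dd θ t ^ 2 - θ * mm θ t ^ 2 - dd θ t * mm' θ t + mm θ t * dd' θ t) +
          θ * mm θ t * (ε * (t * dd θ t)) := by
      rw [← e1, h4]; ring
    rw [h5, e2]
    have h6 := mul_nonneg hC.le (mul_nonneg h0.le hQ)
    have h7 : 0 ≤ θ * mm θ t * (ε * (t * dd θ t)) := by positivity
    exact add_nonneg h6 h7
  have h4 : 0 ≤ ee' θ t + ε * (t * dd' θ t) := nonneg_of_mul_nonneg_right h3 hD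
  have h5 : 0 < ε * dd θ t := mul_pos hε hD
  nlinarith

theorem ee_nonneg {θ t : ℝ} (h0 : 0 < θ) (h1 : θ < 1) (ht : 0 ≤ t) : 0 ≤ ee θ t := by
  have main : ∀ ε : ℝ, 0 < ε → -ee θ t ≤ ε * (t * dd θ t) := by
    intro ε hε
    refine image_le_of_deriv_right_lt_deriv_boundary (f := fun y => -ee θ y) (f' := fun y => -ee' θ y)
      (a := 0) (b := t) (B := fun y => ε * (y * dd θ y)) (B' := fun y => ε * (dd θ y + y * dd' θ y))
      ?_ ?_ ?_ ?_ ?_ ⟨ht, le_rfl⟩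
    · exact fun y _ => (hee θ y).neg.continuousAt.continuousWithinAt
    · exact fun y _ => (hee θ y).neg.hasDerivWithinAt
    · simp [ee, mm]
    · intro y
      have := ((hasDerivAt_id y).mul (hdd θ y)).const_mul ε
      refine this.congr_deriv ?_
      simp
    · exact fun y hy h => key h0 h1 hy.1 hε h
  have h2 : Filter.Tendsto (fun ε : ℝ => ε * (t * dd θ t)) (nhdsWithin 0 (Ioi 0)) (nhds 0) := by
    have : Filter.Tendsto (fun ε : ℝ => ε * (t * dd θ t)) (nhds 0) (nhds (0 * (t * dd θ t))) :=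
      (continuous_id.mul continuous_const).tendsto 0
    rw [zero_mul] at this
    exact this.mono_left nhdsWithin_le_nhds
  have h3 := ge_of_tendsto h2 (Filter.eventually_of_mem self_mem_nhdsWithin fun ε hε => main ε hε)
  linarith

theorem t : Pool.Agent.H78.PB.P_NUP := by
  intro θ t h0 h1 ht
  have h := ee_nonneg h0 h1 ht.le
  refine h.trans_eq ?_
  unfold ee dd mm
  ring

end Pool.Agent.H5PB.NUP
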